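import Mathlib

namespace Pool.Agent.Results.MP_4402c4_co.Full

open Filter Topology

variable {A : Type}

/-- the block `u_i u_{i+1} ⋯ u_{i+n-1}` -/
def block (u : ℕ → A) (i n : ℕ) : List A := (List.range n).map fun t => u (i + t)

/-- `w` is a factor of the infinite word `u` -/
def Factor (u : ℕ → A) (w : List A) : Prop := ∃ i, w = block u i w.length

def ClosedRev (u : ℕ → A) : Prop := ∀ w, Factor u w → Factor u w.reverse

/-- every factor occurs infinitely often -/
def Recurrent (u : ℕ → A) : Prop := ∀ w, Factor u w → {i | w = block u i w.length}.Infinite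

/-- factor complexity -/
noncomputable def cC (u : ℕ → A) (n : ℕ) : ℕ := {w | Factor u w ∧ w.length = n}.ncard

/-- palindromic complexity -/
noncomputable def cP (u : ℕ → A) (n : ℕ) : ℕ :=
  {w | Factor u w ∧ w.length = n ∧ w.reverse = w}.ncard

noncomputable def T (u : ℕ → A) (n : ℕ) : ℤ :=
  (cC u (n + 1) : ℤ) - cC u n + 2 - cP u (n + 1) - cP u n

/-- defect of a finite word -/
noncomputable def dFin (w : List A) : ℤ :=
  (w.length : ℤ) + 1 - ({p | p <:+: w ∧ p.reverse = p}.ncard : ℤ)

/-- defect of an infinite word: the supremum over its initial blocks -/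
noncomputable def dInf (u : ℕ → A) : EReal := ⨆ n, ((dFin (block u 0 n) : ℝ) : EReal)

def U : ℕ → List (Fin 3)
  | 0 => []
  | n + 1 => U n ++ (List.replicate ((U n).length + 5) 0 ++ (List.replicate ((U n).length + 5) 1 ++
      (List.replicate ((U n).length + 5) 2 ++ U n)))

theorem U_len (n : ℕ) : (U (n + 1)).length = 5 * (U n).length + 15 := by
  simp only [U, List.length_append, List.length_replicate]; omega

theorem U_ge (n : ℕ) : n ≤ (U n).length := by
  induction n with
  | zero => omega
  | succ n ih => rw [U_len]; omega

theorem U_pre {k j : ℕ} (h : k ≤ j) : U k <+: U j := by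
  induction j, h using Nat.le_induction with
  | base => exact List.prefix_refl _
  | succ j _ ih => exact ih.trans (List.prefix_append _ _)

def u0 (i : ℕ) : Fin 3 := (U (i + 1)).getD i 0

theorem u0_eq (k i : ℕ) (h : i < (U k).length) : u0 i = (U k)[i] := by
  have h1 : i < (U (i + 1)).length := by have := U_ge (i + 1); omega
  rw [u0, List.getD_eq_getElem _ _ h1]
  rcases le_total k (i + 1) with h2 | h2
  · exact ((U_pre h2).getElem h).symm
  · exact (U_pre h2).getElem h1

theorem block_eq (k : ℕ) (x w y : List (Fin 3)) (h : x ++ w ++ y = U k) :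
    w = block u0 x.length w.length := by
  apply List.ext_getElem
  · simp [block]
  · intro t h1 h2
    have hl : x.length + t < (U k).length := by rw [← h]; simp; omega
    simp only [block, List.getElem_map, List.getElem_range]
    rw [u0_eq k _ hl]
    simp only [← h]
    rw [List.getElem_append_left (by simp; omega), List.getElem_append_right (by omega)]
    simp

theorem factor_iff (w : List (Fin 3)) : Factor u0 w ↔ ∃ k, w <:+: U k := by
  constructor
  · rintro ⟨i, hi⟩
    refine ⟨i + w.length, ?_⟩
    have hl := U_ge (i + w.length)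
    have : w = ((U (i + w.length)).drop i).take w.length := by
      apply List.ext_getElem
      · simp; omega
      · intro t h1 h2
        have e : w[t] = (block u0 i w.length)[t]'(by simp [block, h1]) := by
          simp only [← hi]
        rw [e]
        simp only [block, List.getElem_map, List.getElem_range, List.getElem_take,
          List.getElem_drop]
        exact u0_eq _ _ (by omega)
    have h2 : ((U (i + w.length)).drop i).take w.length <:+: U (i + w.length) :=
      (List.take_prefix _ _).isInfix.trans (List.drop_suffix _ _).isInfix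
    rw [← this] at h2
    exact h2
  · rintro ⟨k, x, y, h⟩
    exact ⟨x.length, block_eq k x w y h⟩

theorem recur : Recurrent u0 := by
  intro w hw
  obtain ⟨k, hk⟩ := (factor_iff w).1 hw
  apply Set.infinite_of_forall_exists_gt
  intro a
  obtain ⟨x, y, h⟩ := hk.trans (U_pre (le_max_left k a)).isInfix
  have hl := U_ge (max k a)
  have hm := le_max_right k a
  set V := U (max k a) with hV
  refine ⟨(V ++ (List.replicate (V.length + 5) 0 ++ (List.replicate (V.length + 5) 1 ++
      (List.replicate (V.length + 5) 2 ++ x)))).length, ?_, by simp; omega⟩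
  apply block_eq (max k a + 1) _ w y
  simp only [U, ← hV, List.append_assoc]
  rw [← List.append_assoc x w y, h]

theorem cut {w x y : List A} {c : A} {m : ℕ} (hm : w.length ≤ m)
    (h : w <:+: x ++ (List.replicate m c ++ y)) :
    w <:+: x ++ List.replicate w.length c ∨ w <:+: List.replicate w.length c ++ y := by
  rcases List.infix_append_iff.1 h with h | h | ⟨l1, l2, e, h1, h2⟩
  · exact Or.inl (h.trans (List.prefix_append _ _).isInfix)
  · right
    rcases List.infix_append_iff.1 h with h | h | ⟨l1, l2, e, h1, h2⟩
    · have := (List.infix_replicate_iff.1 h).2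
      rw [← this]
      exact (List.prefix_append _ _).isInfix
    · exact h.trans (List.suffix_append _ _).isInfix
    · have h3 := (List.suffix_replicate_iff.1 h1).2
      refine List.infix_append_iff.2 (Or.inr (Or.inr ⟨l1, l2, e, ?_, h2⟩))
      exact List.suffix_replicate_iff.2 ⟨by rw [e]; simp, h3⟩
  · left
    have hl : l2.length ≤ w.length := by rw [e]; simp
    have h3 : l2 <+: List.replicate m c :=
      List.prefix_of_prefix_length_le h2 (List.prefix_append _ _) (by simp; omega)
    refine List.infix_append_iff.2 (Or.inr (Or.inr ⟨l1, l2, e, h1, ?_⟩))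
    exact List.prefix_replicate_iff.2 ⟨hl, (List.prefix_replicate_iff.1 h3).2⟩

def Z (n N : ℕ) : List (Fin 3) :=
  List.replicate N 0 ++ (List.replicate N 1 ++ (List.replicate N 2 ++ (U n ++ List.replicate N 0)))

theorem inZ (n : ℕ) (w : List (Fin 3)) (hw : w.length ≤ (U n).length + 5) (k : ℕ) (hk : n ≤ k) :
    w <:+: List.replicate w.length 2 ++ (U k ++ List.replicate w.length 0) →
      w <:+: Z n w.length := by
  induction k, hk using Nat.le_induction with
  | base =>
    intro h
    exact h.trans ((List.suffix_append _ _).trans (List.suffix_append _ _)).isInfix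
  | succ k hk ih =>
    intro h
    have hm : w.length ≤ (U k).length + 5 := by have := (U_pre hk).length_le; omega
    simp only [U, List.append_assoc] at h
    rw [← List.append_assoc] at h
    rcases cut hm h with h | h
    · rw [List.append_assoc] at h; exact ih h
    rcases cut hm h with h | h
    · refine h.trans ?_
      rw [Z, ← List.append_assoc]
      exact (List.prefix_append _ _).isInfix
    rcases cut hm h with h | h
    · refine h.trans (List.IsInfix.trans ?_ (List.suffix_append _ _).isInfix)
      rw [← List.append_assoc]
      exact (List.prefix_append _ _).isInfix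
    · exact ih h

theorem factor_Z (n : ℕ) (w : List (Fin 3)) (hw : w.length ≤ (U n).length + 5)
    (h : Factor u0 w) : w <:+: Z n w.length := by
  obtain ⟨k, hk⟩ := (factor_iff w).1 h
  apply inZ n w hw (max n k) (le_max_left _ _)
  exact (hk.trans (U_pre (le_max_right n k)).isInfix).trans
    ((List.prefix_append _ _).isInfix.trans (List.suffix_append _ _).isInfix)

theorem not_closed : ¬ ClosedRev u0 := by
  intro h
  have h1 : Factor u0 [0, 1] := (factor_iff _).2 ⟨1, by decide⟩
  have h2 := factor_Z 0 _ (by decide) (h _ h1)
  revert h2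
  decide

theorem rep_factor (c : Fin 3) (n : ℕ) : Factor u0 (List.replicate n c) := by
  refine (factor_iff _).2 ⟨n + 1, ?_⟩
  have hl := U_ge n
  have h1 : List.replicate n c <:+: List.replicate ((U n).length + 5) c :=
    List.infix_replicate_iff.2 ⟨by simp; omega, by simp⟩
  refine h1.trans ?_
  refine List.IsInfix.trans ?_ (List.suffix_append _ _).isInfix
  fin_cases c
  · exact (List.prefix_append _ _).isInfix
  · exact (List.prefix_append _ _).isInfix.trans (List.suffix_append _ _).isInfix
  · exact ((List.prefix_append _ _).isInfix.trans (List.suffix_append _ _).isInfix).trans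
      (List.suffix_append _ _).isInfix

theorem pal_inf : {w | Factor u0 w ∧ w.reverse = w}.Infinite := by
  apply Set.infinite_of_injective_forall_mem (f := fun n => List.replicate n (0 : Fin 3))
  · intro a b h
    simpa using congrArg List.length h
  · intro n
    exact ⟨rep_factor 0 n, by simp⟩

theorem cP_ge (n : ℕ) : 3 ≤ cP u0 (n + 1) := by
  have hfin : {w | Factor u0 w ∧ w.length = n + 1 ∧ w.reverse = w}.Finite :=
    (List.finite_length_eq (Fin 3) (n + 1)).subset fun w h => h.2.1
  have hinj : Function.Injective fun c : Fin 3 => List.replicate (n + 1) c := by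
    intro a b h
    simpa [List.replicate_succ] using congrArg List.head? h
  have h1 : (Set.range fun c : Fin 3 => List.replicate (n + 1) c).ncard = 3 := by
    rw [Set.ncard_range_of_injective hinj]; simp
  refine h1.symm.le.trans ?_
  apply Set.ncard_le_ncard _ hfin
  rintro _ ⟨c, rfl⟩
  exact ⟨rep_factor c _, by simp, by simp⟩

theorem cC_le (n N : ℕ) (hN : N ≤ (U n).length + 5) : cC u0 N ≤ 3 * N + (U n).length + 1 := by
  have hs : {w | Factor u0 w ∧ w.length = N} ⊆
      ((Finset.range (3 * N + (U n).length + 1)).image fun i => ((Z n N).drop i).take N :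
        Finset (List (Fin 3))) := by
    rintro w ⟨h1, rfl⟩
    obtain ⟨x, y, h⟩ := factor_Z n w hN h1
    have hl := congrArg List.length h
    simp only [Z, List.length_append, List.length_replicate] at hl
    simp only [Finset.coe_image, Finset.coe_range, Set.mem_image, Set.mem_Iio]
    refine ⟨x.length, by omega, ?_⟩
    rw [← h]
    simp
  refine (Set.ncard_le_ncard hs (Finset.finite_toSet _)).trans ?_
  rw [Set.ncard_coe_finset]
  exact Finset.card_image_le.trans (by simp)

theorem sum_le (N : ℕ) :
    ∑ n ∈ Finset.range (N + 1), T u0 n ≤ (cC u0 (N + 1) : ℤ) - 4 * (N + 1) + 3 := by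
  induction N with
  | zero =>
    have := cP_ge 0
    simp only [zero_add, Finset.sum_range_one, T] at this ⊢
    omega
  | succ N ih =>
    rw [Finset.sum_range_succ]
    have h1 := cP_ge N
    have h2 := cP_ge (N + 1)
    simp only [T] at ih ⊢
    push_cast at ih ⊢
    omega

theorem dInf_nonneg (u : ℕ → A) : 0 ≤ dInf u := by
  refine le_trans ?_ (le_iSup (fun n => ((dFin (block u 0 n) : ℝ) : EReal)) 0)
  have : {p : List A | p <:+: [] ∧ p.reverse = p} = {[]} := by
    ext p
    simp only [List.infix_nil, Set.mem_ofPred_eq, Set.mem_singleton_iff]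
    constructor
    · exact fun h => h.1
    · rintro rfl; simp
  have e : dFin (block u 0 0) = 0 := by
    have e0 : block u 0 0 = [] := rfl
    rw [e0, dFin, this]
    simp
  rw [e]
  simp

theorem result : ¬ ∀ (A : Type) [Fintype A] (u : ℕ → A), Recurrent u →
    {w | Factor u w ∧ w.reverse = w}.Infinite → ¬ ClosedRev u →
    Tendsto (fun N => (((∑ n ∈ Finset.range N, T u n : ℤ) : ℝ) : EReal)) atTop
      (𝓝 (2 * dInf u)) := by
  intro h
  have h1 := h (Fin 3) u0 recur pal_inf not_closed
  have h2 : (((-1 : ℤ) : ℝ) : EReal) < 2 * dInf u0 := by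
    refine lt_of_lt_of_le ?_ (mul_nonneg (by norm_num) (dInf_nonneg u0))
    rw [← EReal.coe_zero, EReal.coe_lt_coe_iff]
    norm_num
  obtain ⟨a, ha⟩ := eventually_atTop.1 (h1.eventually (lt_mem_nhds h2))
  have hl := U_ge a
  have h3 := ha ((U a).length + 4 + 1) (by omega)
  rw [EReal.coe_lt_coe_iff, Int.cast_lt] at h3
  have h4 := sum_le ((U a).length + 4)
  have h5 := cC_le a ((U a).length + 4 + 1) (by omega)
  push_cast at h4
  omega

end Pool.Agent.Results.MP_4402c4_co.Full
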